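import Mathlib
import Pool.Graph.R_seed8.R821.Bohr
import Pool.Graph.R_seed8.R821.MinTop

/-!
# Locally quasi-convex, precompact and Mackey topologies on abelian groups
-/

set_option autoImplicit false

open Filter Topology Pointwise

namespace Pool.Agent.H85.MK

open Pool.Agent.R821 (T exists_real norm_coe_le zsmul_norm_le norm_le_of_mult exists_mult
  eq_zero_of_small exists_char_ne_zero exists_char_sep norm_coe_eq)

universe u

/-- the subset `[-1/4, 1/4] + ℤ` of the circle `T = ℝ/ℤ` -/
def Tplus : Set T := (fun r : ℝ => (r : T)) '' Set.Icc (-(1 / 4)) (1 / 4)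

theorem mem_Tplus {t : T} : t ∈ Tplus ↔ ‖t‖ ≤ 1 / 4 := by
  constructor
  · rintro ⟨r, ⟨hr1, hr2⟩, rfl⟩
    exact (norm_coe_le r).trans (abs_le.2 ⟨hr1, hr2⟩)
  · intro h
    obtain ⟨r, hr, hr1, -⟩ := exists_real t
    rw [← hr1, abs_le] at h
    exact ⟨r, ⟨h.1, h.2⟩, hr⟩

section Defs

variable {G : Type u} [AddCommGroup G]

/-- A subset `A` of the abelian group `G` is quasi-convex for the topology `τ`: every point outside `A`
can be separated from `A` by a `τ`-continuous character. -/
def QuasiConvex (τ : TopologicalSpace G) (A : Set G) : Prop :=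
  ∀ x, x ∉ A → ∃ χ : G →+ T, @Continuous G T τ _ χ ∧ (∀ a ∈ A, χ a ∈ Tplus) ∧ χ x ∉ Tplus

/-- The topology `τ` is locally quasi-convex: `0` has a neighbourhood base of quasi-convex sets. -/
def LocallyQuasiConvex (τ : TopologicalSpace G) : Prop :=
  ∀ U ∈ @nhds G τ 0, ∃ A ∈ @nhds G τ 0, A ⊆ U ∧ QuasiConvex τ A

/-- The two topologies have the same continuous characters. -/
def Compatible (σ τ : TopologicalSpace G) : Prop :=
  ∀ χ : G →+ T, @Continuous G T σ _ χ ↔ @Continuous G T τ _ χ

/-- The topology `τ` is precompact: for every neighbourhood `U` of `0` there is a finite set `F` with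
`F + U = G`. -/
def PrecompactTop (τ : TopologicalSpace G) : Prop :=
  ∀ U ∈ @nhds G τ 0, ∃ F : Set G, F.Finite ∧ F + U = Set.univ

/-- The group topology `τ` on `G` is Mackey: it is locally quasi-convex and it is finer than every
locally quasi-convex Hausdorff group topology `σ` on `G` with the same continuous characters (in Mathlib
`τ ≤ σ` says that `τ` is finer than `σ`). -/
def Mackey (τ : TopologicalSpace G) : Prop :=
  LocallyQuasiConvex τ ∧ ∀ σ : TopologicalSpace G, @IsTopologicalAddGroup G σ _ → @T2Space G σ →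
    LocallyQuasiConvex σ → Compatible σ τ → τ ≤ σ

end Defs

/-- finite nets for families of maps into the circle -/
theorem exists_net {α ι : Type*} (I : Finset ι) (Ψ : α → ι → T) (ε : ℝ) (hε : 0 < ε) :
    ∃ E : Set α, E.Finite ∧ ∀ a, ∃ e ∈ E, ∀ i ∈ I, ‖Ψ a i - Ψ e i‖ ≤ ε := by
  classical
  obtain ⟨S, -, hS, hcov⟩ := (isCompact_univ (X := T)).finite_cover_balls
    (e := ε / 2) (by positivity)
  have hch : ∀ q : T, ∃ a ∈ S, q ∈ Metric.ball a (ε / 2) := by
    intro q
    have := hcov (Set.mem_univ q)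
    simpa using this
  choose c hcS hc using hch
  let code : α → (I → S) := fun a i => ⟨c (Ψ a i), hcS _⟩
  have hSf : Finite S := hS.to_subtype
  have hrep : ∀ k : Set.range code, ∃ a, code a = k := fun k => k.2
  choose rep hrep2 using hrep
  refine ⟨Set.range rep, Set.finite_range _, fun a => ?_⟩
  refine ⟨rep ⟨code a, a, rfl⟩, ⟨_, rfl⟩, fun i hi => ?_⟩
  have h1 : code (rep ⟨code a, a, rfl⟩) = code a := hrep2 ⟨code a, a, rfl⟩
  have h2 := congrArg Subtype.val (congrFun h1 ⟨i, hi⟩)
  have h3 : c (Ψ (rep ⟨code a, a, rfl⟩) i) = c (Ψ a i) := h2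
  have h4 := hc (Ψ a i)
  have h5 := hc (Ψ (rep ⟨code a, a, rfl⟩) i)
  rw [h3] at h5
  rw [Metric.mem_ball] at h4 h5
  rw [← dist_eq_norm]
  have h6 := dist_triangle_right (Ψ a i) (Ψ (rep ⟨code a, a, rfl⟩) i) (c (Ψ a i))
  linarith

section

variable {G : Type u} [AddCommGroup G]

theorem nsmul_nhds (τ : TopologicalSpace G) (hτ : @IsTopologicalAddGroup G τ _) {A : Set G}
    (hA : A ∈ @nhds G τ 0) (k : ℕ) : {l : G | k • l ∈ A} ∈ @nhds G τ 0 := by
  have h1 : @Continuous G G τ τ (fun l => k • l) :=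
    @continuous_nsmul G τ _ (@IsTopologicalAddGroup.toContinuousAdd G τ _ hτ) k
  have h2 := @Continuous.tendsto G G τ τ _ h1 0
  rw [smul_zero] at h2
  exact h2 hA

/-- the polar of a neighbourhood of zero in a precompact topology is finite -/
theorem polar_nhds_finite (τ : TopologicalSpace G) (hτ : @IsTopologicalAddGroup G τ _)
    (hp : PrecompactTop τ) (A : Set G) (hA : A ∈ @nhds G τ 0) :
    {x : G →+ T | ∀ a ∈ A, ‖x a‖ ≤ 1 / 4}.Finite := by
  classical
  have hA' : (⋂ k ∈ Finset.range 5, {l : G | k • l ∈ A}) ∈ @nhds G τ 0 :=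
    (Filter.biInter_finset_mem _).2 fun k _ => nsmul_nhds τ hτ hA k
  obtain ⟨E, hE, hEA⟩ := hp _ hA'
  have hx16 : ∀ x : G →+ T, (∀ a ∈ A, ‖x a‖ ≤ 1 / 4) →
      ∀ l ∈ ⋂ k ∈ Finset.range 5, {l : G | k • l ∈ A}, ‖x l‖ ≤ 1 / 16 := by
    intro x hx l hl
    have h1 := norm_le_of_mult (y := x l) (n := 4) (by norm_num) fun k hk => by
      have h2 : k • l ∈ A := by
        have := Set.mem_iInter₂.1 hl k (Finset.mem_range.2 (by omega))
        exact this
      have h3 := hx _ h2
      rw [map_nsmul] at h3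
      exact h3
    norm_num at h1
    linarith
  set P : Set (G →+ T) := {x : G →+ T | ∀ a ∈ A, ‖x a‖ ≤ 1 / 4} with hP
  obtain ⟨E', hE', hnet⟩ := exists_net hE.toFinset (fun (p : P) (g : G) => (p : G →+ T) g) (1 / 8)
    (by norm_num)
  refine (hE'.image Subtype.val).subset ?_
  intro p hpP
  obtain ⟨q, hq, hpq⟩ := hnet ⟨p, hpP⟩
  refine ⟨q, hq, ?_⟩
  have key : ∀ g : G, (p - q) g = 0 := by
    intro g
    refine eq_zero_of_small fun n => ?_
    have hn : n • g ∈ (Set.univ : Set G) := trivial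
    rw [← hEA] at hn
    obtain ⟨e, he, l, hl, hel⟩ := hn
    have hel' : e + l = n • g := hel
    have h1 : n • (p - q) g = (p e - (q : G →+ T) e) + (p l - (q : G →+ T) l) := by
      rw [← map_nsmul, ← hel', map_add]
      simp
    rw [h1]
    refine (norm_add_le _ _).trans ?_
    have h2 : ‖p e - (q : G →+ T) e‖ ≤ 1 / 8 := hpq e (hE.mem_toFinset.2 he)
    have h3 := norm_sub_le (p l) ((q : G →+ T) l)
    have h4 := hx16 p hpP l hl
    have h5 := hx16 q q.2 l hl
    linarith
  ext g
  have := key g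
  simp only [AddMonoidHom.sub_apply, sub_eq_zero] at this
  exact this.symm

theorem cont_add' {X : Type u} [TopologicalSpace X] {f g : X → T} (hf : Continuous f)
    (hg : Continuous g) : Continuous fun x => f x + g x := hf.add hg

theorem cont_neg' {X : Type u} [TopologicalSpace X] {f : X → T} (hf : Continuous f) :
    Continuous fun x => - f x := hf.neg

theorem firstCountable_of_metrizable {X : Type u} [TopologicalSpace X]
    [TopologicalSpace.MetrizableSpace X] : FirstCountableTopology X := by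
  let _ := TopologicalSpace.metrizableSpaceMetric X
  infer_instance

/-- the group of the continuous characters -/
def dual (τ : TopologicalSpace G) : AddSubgroup (G →+ T) where
  carrier := {χ | @Continuous G T τ _ χ}
  zero_mem' := @continuous_const G T τ _ 0
  add_mem' := by
    intro x y hx hy
    have hx' : @Continuous G T τ _ x := hx
    have hy' : @Continuous G T τ _ y := hy
    exact @cont_add' G τ _ _ hx' hy'
  neg_mem' := by
    intro x hx
    have hx' : @Continuous G T τ _ x := hx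
    exact @cont_neg' G τ _ hx'

theorem mem_dual {τ : TopologicalSpace G} {χ : G →+ T} : χ ∈ dual τ ↔ @Continuous G T τ _ χ :=
  Iff.rfl

theorem dual_ball (τ : TopologicalSpace G) {x : G →+ T} (hx : x ∈ dual τ) {δ : ℝ} (hδ : 0 < δ) :
    {l : G | ‖x l‖ < δ} ∈ @nhds G τ 0 := by
  have h1 := @Continuous.tendsto G T τ _ _ (mem_dual.1 hx) 0
  rw [map_zero] at h1
  have h2 : {y : T | ‖y‖ < δ} ∈ 𝓝 (0 : T) :=
    (isOpen_lt continuous_norm continuous_const).mem_nhds (by simpa using hδ)
  exact h1 h2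

/-- neighbourhoods of zero in a precompact locally quasi-convex topology contain Bohr sets -/
theorem exists_bohr (τ : TopologicalSpace G) (hτ : @IsTopologicalAddGroup G τ _)
    (hp : PrecompactTop τ) (hlqc : LocallyQuasiConvex τ) (U : Set G) (hU : U ∈ @nhds G τ 0) :
    ∃ F : Finset (G →+ T), (∀ f ∈ F, f ∈ dual τ) ∧ ∀ l : G, (∀ f ∈ F, ‖f l‖ ≤ 1 / 4) → l ∈ U := by
  classical
  obtain ⟨A, hA, hAU, hqc⟩ := hlqc U hU
  have hfin := polar_nhds_finite τ hτ hp A hA
  refine ⟨hfin.toFinset.filter fun x => x ∈ dual τ, fun f hf => (Finset.mem_filter.1 hf).2,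
    fun l hl => hAU ?_⟩
  by_contra hlA
  obtain ⟨χ, hχ, hχA, hχl⟩ := hqc l hlA
  apply hχl
  rw [mem_Tplus]
  exact hl χ (Finset.mem_filter.2 ⟨hfin.mem_toFinset.2 fun a ha => mem_Tplus.1 (hχA a ha), hχ⟩)

/-- the dual group of a metrizable precompact group is countable -/
theorem dual_countable (τ : TopologicalSpace G) (hτ : @IsTopologicalAddGroup G τ _)
    (hmet : @TopologicalSpace.MetrizableSpace G τ) (hp : PrecompactTop τ) :
    (dual τ : Set (G →+ T)).Countable := by
  have hfc : (@nhds G τ 0).IsCountablyGenerated := by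
    have : @FirstCountableTopology G τ := @firstCountable_of_metrizable G τ hmet
    exact @FirstCountableTopology.nhds_generated_countable G τ this 0
  obtain ⟨B, hB⟩ := (@nhds G τ 0).exists_antitone_basis
  have h1 : (dual τ : Set (G →+ T)) ⊆ ⋃ n, {x : G →+ T | ∀ a ∈ B n, ‖x a‖ ≤ 1 / 4} := by
    intro x hx
    obtain ⟨n, -, hn⟩ := hB.toHasBasis.mem_iff.1 (dual_ball τ hx (δ := 1 / 4) (by norm_num))
    refine Set.mem_iUnion.2 ⟨n, fun a ha => ?_⟩
    have h2 : ‖x a‖ < 1 / 4 := hn ha
    exact h2.le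
  refine (Set.countable_iUnion fun n => ?_).mono h1
  exact (polar_nhds_finite τ hτ hp (B n) (hB.toHasBasis.mem_of_mem trivial)).countable

/-- the characters of a Hausdorff precompact locally quasi-convex group separate the points -/
theorem dual_separates (τ : TopologicalSpace G) (hτ : @IsTopologicalAddGroup G τ _)
    (hT2 : @T2Space G τ) (hp : PrecompactTop τ) (hlqc : LocallyQuasiConvex τ) {g : G} (hg : g ≠ 0) :
    ∃ χ ∈ dual τ, χ g ≠ 0 := by
  have h1 : {g}ᶜ ∈ @nhds G τ 0 := by
    have h2 : @IsOpen G τ {g}ᶜ := @isOpen_compl_singleton G τ (@T2Space.t1Space G τ hT2) _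
    exact @IsOpen.mem_nhds G τ 0 _ h2 (fun h3 => hg (Eq.symm h3))
  obtain ⟨F, hFH, hF2⟩ := exists_bohr τ hτ hp hlqc _ h1
  by_contra hcon
  push Not at hcon
  refine hF2 g (fun f hf => ?_) rfl
  rw [hcon f (hFH f hf), norm_zero]
  norm_num

theorem cont_of_zero' {X : Type u} [AddCommGroup X] [TopologicalSpace X] [IsTopologicalAddGroup X]
    (x : X →+ T) (h : Tendsto x (𝓝 0) (𝓝 (x 0))) : Continuous x :=
  continuous_of_continuousAt_zero x h

/-- continuity of a character from smallness near zero -/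
theorem mem_dual_of_small (τ : TopologicalSpace G) (hτ : @IsTopologicalAddGroup G τ _)
    (x : G →+ T) (h : ∀ η > 0, {g : G | ‖x g‖ < η} ∈ @nhds G τ 0) : x ∈ dual τ := by
  rw [mem_dual]
  refine @cont_of_zero' G _ τ hτ x ?_
  have h0 : Tendsto x (@nhds G τ 0) (𝓝 (x 0)) := by
    rw [map_zero]
    rw [Metric.nhds_basis_ball.tendsto_right_iff]
    intro η hη
    filter_upwards [h η hη] with g hg
    simpa using hg
  exact h0

end

end Pool.Agent.H85.MK
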