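import Pool.Agent.H85.MK.Finer

/-!
# Groups of bounded exponent
-/

set_option autoImplicit false

open Filter Topology Pointwise

namespace Pool.Agent.H85.MK

open Pool.Agent.R821 (T exists_real norm_coe_le zsmul_norm_le norm_le_of_mult exists_mult
  eq_zero_of_small exists_char_ne_zero exists_char_sep norm_coe_eq le_of_zero homSub isClosed_homSub)

universe u

/-- an abelian group with only countably many characters is finite -/
theorem finite_of_countable_hom {A : Type u} [AddCommGroup A] (h : Countable (A →+ T)) :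
    Finite A := by
  classical
  have hcomp : CompactSpace (homSub A) := isCompact_iff_compactSpace.1 (isClosed_homSub A).isCompact
  let e : homSub A → (A →+ T) := fun f => AddMonoidHom.mk' f.1 f.2
  have he : Function.Injective e := by
    intro f f' hff
    apply Subtype.ext
    funext a
    exact DFunLike.congr_fun hff a
  have hc : Countable (homSub A) := he.countable
  obtain ⟨x, hx⟩ := nonempty_interior_of_iUnion_of_closed (ι := homSub A) (X := homSub A)
    (f := fun x => {x}) (fun x => isClosed_singleton) (Set.iUnion_of_singleton _)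
  have hx1 : IsOpen ({x} : Set (homSub A)) := by
    have h1 : interior ({x} : Set (homSub A)) = {x} := by
      obtain ⟨y, hy⟩ := hx
      have h3 : y ∈ ({x} : Set (homSub A)) := interior_subset hy
      have h2 : y = x := h3
      rw [h2] at hy
      exact Set.Subset.antisymm interior_subset (Set.singleton_subset_iff.2 hy)
    rw [← h1]
    exact isOpen_interior
  have hd : DiscreteTopology (homSub A) := by
    refine discreteTopology_of_isOpen_singleton_zero ?_
    have h1 : ({0} : Set (homSub A)) = (fun y => y + x) ⁻¹' {x} := by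
      ext y
      simp
    rw [h1]
    exact hx1.preimage (continuous_add_const x)
  have hfin : Finite (homSub A) := finite_of_compact_of_discrete
  have hfin2 : Finite (A →+ T) := by
    refine Finite.of_injective (fun k : A →+ T => (⟨k, fun x y => map_add k x y⟩ : homSub A)) ?_
    intro k k' hk
    ext a
    exact congrFun (congrArg Subtype.val hk) a
  obtain ⟨n, hn⟩ : ∃ n, n = Nat.card (A →+ T) := ⟨_, rfl⟩
  have hn0 : 0 < n := by rw [hn]; exact Nat.card_pos
  have htor : {y : T | n • y = 0}.Finite := AddCircle.finite_torsion _ hn0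
  have : Finite {y : T | n • y = 0} := htor.to_subtype
  have hkill : ∀ (k : A →+ T) (a : A), n • k a = 0 := by
    intro k a
    have h1 : n • k = 0 := by rw [hn]; exact card_nsmul_eq_zero'
    exact DFunLike.congr_fun h1 a
  refine Finite.of_injective (fun a : A => fun k : A →+ T => (⟨k a, hkill k a⟩ : {y : T | n • y = 0})) ?_
  intro a b hab
  by_contra hne
  obtain ⟨k, hk⟩ := exists_char_ne_zero (a - b) (sub_ne_zero.2 hne)
  apply hk
  have h1 := congrArg Subtype.val (congrFun hab k)
  rw [map_sub, sub_eq_zero]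
  exact h1

theorem isOpen_of_closed' {G : Type u} [AddCommGroup G] [TopologicalSpace G]
    [IsTopologicalAddGroup G] (K : AddSubgroup G) (hK : IsClosed (K : Set G)) (hf : K.FiniteIndex) :
    IsOpen (K : Set G) := AddSubgroup.isOpen_of_isClosed_of_finiteIndex K hK

theorem isClosed_ker' {G : Type u} [AddCommGroup G] [TopologicalSpace G] (S : Set (G →+ T))
    (hS : ∀ χ ∈ S, Continuous χ) : IsClosed {g : G | ∀ χ ∈ S, χ g = 0} := by
  have h1 : {g : G | ∀ χ ∈ S, χ g = 0} = ⋂ χ ∈ S, {g : G | χ g = 0} := by
    ext g; simp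
  rw [h1]
  exact isClosed_biInter fun χ hχ => isClosed_eq (hS χ hχ) continuous_const

/-- **Bounded exponent implies Mackey.** -/
theorem mackey_of_bounded {G : Type u} [AddCommGroup G] {m : ℕ} (hm : 1 ≤ m)
    (hG : ∀ g : G, m • g = 0) (τ : TopologicalSpace G) (hτ : @IsTopologicalAddGroup G τ _)
    (hmet : @TopologicalSpace.MetrizableSpace G τ) (hp : PrecompactTop τ)
    (hlqc : LocallyQuasiConvex τ) : Mackey τ := by
  classical
  refine ⟨hlqc, fun σ hσ hσT2 hσlqc hcomp => ?_⟩
  refine le_of_zero τ σ hτ hσ ?_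
  intro U hU
  obtain ⟨V, hV, hVU, hqc⟩ := hσlqc U hU
  refine mem_of_superset ?_ hVU
  have hW : (⋂ k ∈ Finset.range m, {l : G | k • l ∈ V}) ∈ @nhds G σ 0 :=
    (Filter.biInter_finset_mem _).2 fun k _ => nsmul_nhds σ hσ hV k
  obtain ⟨S, hS⟩ : ∃ S : Set (G →+ T), S = {χ | χ ∈ dual σ ∧ ∀ v ∈ V, ‖χ v‖ ≤ 1 / 4} := ⟨_, rfl⟩
  have hkill : ∀ χ ∈ S, ∀ w ∈ ⋂ k ∈ Finset.range m, {l : G | k • l ∈ V}, χ w = 0 := by
    intro χ hχ w hw
    rw [hS] at hχ
    refine eq_zero_of_small fun n => ?_
    have h1 : n • w = (n % m) • w := by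
      conv_lhs => rw [← Nat.div_add_mod n m]
      rw [add_smul, mul_comm, mul_smul, hG, smul_zero, zero_add]
    rw [← map_nsmul, h1]
    have h2 : (n % m) • w ∈ V := Set.mem_iInter₂.1 hw _ (Finset.mem_range.2 (Nat.mod_lt _ hm))
    exact hχ.2 _ h2
  let K : AddSubgroup G :=
    { carrier := {g | ∀ χ ∈ S, χ g = 0}
      zero_mem' := fun χ _ => map_zero χ
      add_mem' := by
        intro a b ha hb χ hχ
        rw [map_add, ha χ hχ, hb χ hχ, add_zero]
      neg_mem' := by
        intro a ha χ hχ
        rw [map_neg, ha χ hχ, neg_zero] }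
  have hKm : ∀ g : G, g ∈ K ↔ ∀ χ ∈ S, χ g = 0 := fun g => Iff.rfl
  have hKσ : (K : Set G) ∈ @nhds G σ 0 :=
    mem_of_superset hW fun w hw χ hχ => hkill χ hχ w hw
  -- the quotient has only countably many characters
  have hcount : Countable (G ⧸ K →+ T) := by
    have h1 : ∀ k : G ⧸ K →+ T, k.comp (QuotientAddGroup.mk' K) ∈ dual τ := by
      intro k
      have h2 : k.comp (QuotientAddGroup.mk' K) ∈ dual σ := by
        refine mem_dual_of_small σ hσ _ fun η hη => ?_
        refine mem_of_superset hKσ fun g hg => ?_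
        have h3 : (QuotientAddGroup.mk' K) g = 0 := (QuotientAddGroup.eq_zero_iff g).2 hg
        change ‖k ((QuotientAddGroup.mk' K) g)‖ < η
        rw [h3, map_zero, norm_zero]
        exact hη
      exact (hcomp _).1 h2
    have h2 : Countable (dual τ) := (dual_countable τ hτ hmet hp).to_subtype
    refine Function.Injective.countable (f := fun k : G ⧸ K →+ T =>
      (⟨k.comp (QuotientAddGroup.mk' K), h1 k⟩ : dual τ)) ?_
    intro k k' hkk
    have h3 : k.comp (QuotientAddGroup.mk' K) = k'.comp (QuotientAddGroup.mk' K) :=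
      congrArg Subtype.val hkk
    ext q
    exact DFunLike.congr_fun h3 q
  have hfin : Finite (G ⧸ K) := finite_of_countable_hom hcount
  have hKτ : (K : Set G) ∈ @nhds G τ 0 := by
    have h1 : @IsClosed G τ (K : Set G) := @isClosed_ker' G _ τ S fun χ hχ => by
      rw [hS] at hχ
      exact (hcomp χ).1 hχ.1
    have h2 : @IsOpen G τ (K : Set G) :=
      @isOpen_of_closed' G _ τ hτ K h1 (AddSubgroup.finiteIndex_of_finite_quotient)
    exact @IsOpen.mem_nhds G τ 0 _ h2 K.zero_mem
  refine mem_of_superset hKτ fun g hg => ?_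
  by_contra hgV
  obtain ⟨χ, hχ, hχV, hχg⟩ := hqc g hgV
  apply hχg
  have h1 : χ ∈ S := by
    rw [hS]
    exact ⟨hχ, fun v hv => mem_Tplus.1 (hχV v hv)⟩
  rw [mem_Tplus, (hKm g).1 hg χ h1, norm_zero]
  norm_num

end Pool.Agent.H85.MK
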