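import Pool.Agent.H85.MK.Bounded

/-!
# Existence of metrizable precompact topologies, and open subgroups
-/

set_option autoImplicit false

open Filter Topology Pointwise

namespace Pool.Agent.H85.MK

open Pool.Agent.R821 (T exists_real norm_coe_le zsmul_norm_le norm_le_of_mult exists_mult
  eq_zero_of_small exists_char_ne_zero exists_char_sep norm_coe_eq le_of_zero homSub isClosed_homSub
  totBdd_of_inducing)

universe u

/-- every countable abelian group has a metrizable precompact locally quasi-convex group topology -/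
theorem exists_precompact (G : Type u) [AddCommGroup G] [Countable G] :
    ∃ τ : TopologicalSpace G, @IsTopologicalAddGroup G τ _ ∧ @TopologicalSpace.MetrizableSpace G τ ∧
      PrecompactTop τ ∧ LocallyQuasiConvex τ := by
  classical
  have hch : ∀ g : G, ∃ k : G →+ T, g ≠ 0 → k g ≠ 0 := by
    intro g
    by_cases hg : g = 0
    · exact ⟨0, fun h => absurd hg h⟩
    · obtain ⟨k, hk⟩ := exists_char_ne_zero g hg
      exact ⟨k, fun _ => hk⟩
  choose k hk using hch
  let Ψ : G →+ (G → T) :=
    { toFun := fun a b => k b a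
      map_zero' := by funext b; exact map_zero _
      map_add' := fun a a' => by funext b; exact map_add _ _ _ }
  have hinj : Function.Injective Ψ := by
    intro a b hab
    by_contra hne
    apply hk (a - b) (sub_ne_zero.2 hne)
    have h1 : k (a - b) a = k (a - b) b := congrFun hab (a - b)
    rw [map_sub, h1, sub_self]
  let τ : TopologicalSpace G := TopologicalSpace.induced Ψ inferInstance
  have hind : IsInducing Ψ := ⟨rfl⟩
  have hkc : ∀ i : G, Continuous (k i) := fun i =>
    show Continuous fun a => Ψ a i from (continuous_apply i).comp hind.continuous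
  have hgrp : IsTopologicalAddGroup G := IsInducing.topologicalAddGroup Ψ hind
  have hmet : TopologicalSpace.MetrizableSpace G := (IsEmbedding.mk hind hinj).metrizableSpace
  refine ⟨τ, hgrp, hmet, ?_, ?_⟩
  · intro U hU
    obtain ⟨E, hE, hEU⟩ := totBdd_of_inducing Ψ hind U hU
    exact ⟨E, hE, by rw [add_comm]; exact hEU⟩
  · intro U hU
    have hU' : U ∈ 𝓝 (0 : G) := hU
    rw [hind.nhds_eq_comap, map_zero] at hU'
    obtain ⟨W, hW, hWU⟩ := hU'
    rw [nhds_pi, Filter.mem_pi] at hW
    obtain ⟨I, hI, t, ht, htW⟩ := hW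
    have hm : ∀ i : G, ∃ m : ℕ, ∀ y : T, ‖y‖ ≤ 1 / (4 * ((m + 1 : ℕ) : ℝ)) → y ∈ t i := by
      intro i
      obtain ⟨ε, hε, hεt⟩ := Metric.mem_nhds_iff.1 (ht i)
      obtain ⟨m, hm⟩ := exists_nat_one_div_lt hε
      refine ⟨m, fun y hy => hεt ?_⟩
      rw [Metric.mem_ball, Pi.zero_apply, dist_zero_right]
      refine lt_of_le_of_lt hy (lt_of_le_of_lt ?_ hm)
      push_cast
      exact one_div_le_one_div_of_le (by positivity) (by linarith [Nat.cast_nonneg (α := ℝ) m])
    choose mm hmm using hm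
    obtain ⟨M, hM⟩ : ∃ M, M = hI.toFinset.sup mm + 1 := ⟨_, rfl⟩
    have hM1 : 1 ≤ M := by omega
    have hM0 : (0 : ℝ) < M := by exact_mod_cast hM1
    refine ⟨{a : G | ∀ i ∈ I, ‖k i a‖ ≤ 1 / (4 * (M : ℝ))}, ?_, ?_, ?_⟩
    · change _ ∈ 𝓝 (0 : G)
      have h1 : (⋂ i ∈ I, {a : G | ‖k i a‖ < 1 / (4 * (M : ℝ))}) ∈ 𝓝 (0 : G) := by
        refine (Filter.biInter_mem hI).2 fun i _ => ?_
        exact dual_ball τ (mem_dual.2 (hkc i)) (by positivity)
      refine mem_of_superset h1 fun a ha i hi => ?_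
      have h2 : ‖k i a‖ < 1 / (4 * (M : ℝ)) := Set.mem_iInter₂.1 ha i hi
      exact h2.le
    · intro a ha
      refine hWU (htW fun i hi => hmm i _ ((ha i hi).trans ?_))
      have h1 : mm i + 1 ≤ M := by
        have := Finset.le_sup (f := mm) (hI.mem_toFinset.2 hi)
        omega
      have h2 : ((mm i + 1 : ℕ) : ℝ) ≤ M := by exact_mod_cast h1
      exact one_div_le_one_div_of_le (by positivity) (by linarith)
    · intro l hl
      obtain ⟨i, hi, hil⟩ : ∃ i ∈ I, 1 / (4 * (M : ℝ)) < ‖k i l‖ := by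
        by_contra hcon
        push Not at hcon
        exact hl hcon
      obtain ⟨j, hj, hj2⟩ := exists_mult hM1 hil
      refine ⟨j • k i, (dual τ).nsmul_mem (mem_dual.2 (hkc i)) j, fun a ha => ?_, fun hcon => ?_⟩
      · rw [mem_Tplus]
        change ‖j • k i a‖ ≤ 1 / 4
        refine (nsmul_norm_le j (k i a)).trans ?_
        have hj' : (j : ℝ) ≤ M := by exact_mod_cast hj
        calc (j : ℝ) * ‖k i a‖ ≤ M * (1 / (4 * M)) :=
              mul_le_mul hj' (ha i hi) (norm_nonneg _) hM0.le
          _ = 1 / 4 := by field_simp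
      · rw [mem_Tplus] at hcon
        exact absurd hj2 (not_lt.2 hcon)

theorem isOpen_of_nhds' {G : Type u} [AddCommGroup G] [TopologicalSpace G]
    [IsTopologicalAddGroup G] (K : AddSubgroup G) (hK : (K : Set G) ∈ 𝓝 (0 : G)) :
    IsOpen (K : Set G) := K.isOpen_of_mem_nhds hK

/-- a precompact locally quasi-convex Hausdorff group of bounded exponent, not trivial, has a proper
open subgroup -/
theorem exists_open {G : Type u} [AddCommGroup G] [Nontrivial G] {m : ℕ} (hm : 1 ≤ m)
    (hG : ∀ g : G, m • g = 0) (τ : TopologicalSpace G) (hτ : @IsTopologicalAddGroup G τ _)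
    (hT2 : @T2Space G τ) (hp : PrecompactTop τ) (hlqc : LocallyQuasiConvex τ) :
    ∃ K : AddSubgroup G, K ≠ ⊤ ∧ @IsOpen G τ (K : Set G) := by
  obtain ⟨g, hg⟩ := exists_ne (0 : G)
  obtain ⟨χ, hχ, hχg⟩ := dual_separates τ hτ hT2 hp hlqc hg
  have hm0 : (0 : ℝ) < m := by exact_mod_cast hm
  refine ⟨χ.ker, fun h => hχg ?_, ?_⟩
  · have : g ∈ χ.ker := by rw [h]; trivial
    exact this
  · have h1 : (χ.ker : Set G) ∈ @nhds G τ 0 := by
      refine mem_of_superset (dual_ball τ hχ (δ := 1 / (4 * m)) (by positivity)) fun a ha => ?_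
      change χ a = 0
      have ha' : ‖χ a‖ < 1 / (4 * m) := ha
      refine eq_zero_of_small fun n => ?_
      have h2 : n • χ a = (n % m) • χ a := by
        conv_lhs => rw [← Nat.div_add_mod n m]
        rw [add_smul, mul_comm, mul_smul, ← map_nsmul, hG, map_zero, smul_zero, zero_add]
      rw [h2]
      refine (nsmul_norm_le _ _).trans ?_
      have h3 : ((n % m : ℕ) : ℝ) ≤ m := by exact_mod_cast (Nat.mod_lt _ hm).le
      calc ((n % m : ℕ) : ℝ) * ‖χ a‖ ≤ m * (1 / (4 * m)) :=
            mul_le_mul h3 ha'.le (norm_nonneg _) hm0.le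
        _ = 1 / 4 := by field_simp
    exact @isOpen_of_nhds' G _ τ hτ χ.ker h1

end Pool.Agent.H85.MK
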