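import Pool.Agent.H85.MK.Split

/-!
# The finer topology
-/

set_option autoImplicit false

open Filter Topology Pointwise

namespace Pool.Agent.H85.MK

open Pool.Agent.R821 (T exists_real norm_coe_le zsmul_norm_le norm_le_of_mult exists_mult
  eq_zero_of_small exists_char_ne_zero exists_char_sep norm_coe_eq le_of_zero)

universe u

/-- Every metrizable precompact locally quasi-convex group topology on a countable abelian group of
unbounded exponent has a strictly finer locally quasi-convex group topology with the same continuous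
characters. -/
theorem exists_finer {G : Type u} [AddCommGroup G] [Countable G]
    (hub : ∀ M : ℕ, 1 ≤ M → ∃ g : G, M • g ≠ 0) (τ : TopologicalSpace G)
    (hτ : @IsTopologicalAddGroup G τ _) (hmet : @TopologicalSpace.MetrizableSpace G τ)
    (hp : PrecompactTop τ) (hlqc : LocallyQuasiConvex τ) :
    ∃ σ : TopologicalSpace G, @IsTopologicalAddGroup G σ _ ∧ @T2Space G σ ∧ LocallyQuasiConvex σ ∧
      Compatible σ τ ∧ σ ≤ τ ∧ ¬ τ ≤ σ := by
  classical
  have hT2 : @T2Space G τ := @TopologicalSpace.t2Space_of_metrizableSpace G τ hmet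
  have hbohr := exists_bohr τ hτ hp hlqc
  have hcount := dual_countable τ hτ hmet hp
  have hsep : ∀ g : G, g ≠ 0 → ∃ χ ∈ dual τ, χ g ≠ 0 := fun g hg =>
    dual_separates τ hτ hT2 hp hlqc hg
  obtain ⟨χ, hχr⟩ := hcount.exists_eq_range ⟨0, (dual τ).zero_mem⟩
  have hχ1 : ∀ n, χ n ∈ dual τ := fun n => by
    have : χ n ∈ (dual τ : Set (G →+ T)) := by rw [hχr]; exact ⟨n, rfl⟩
    exact this
  have hχ2 : ∀ φ ∈ dual τ, ∃ n, χ n = φ := by
    intro φ hφ
    have h1 : φ ∈ (dual τ : Set (G →+ T)) := hφ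
    rw [hχr] at h1
    exact h1
  obtain ⟨g, hg⟩ := exists_surjective_nat G
  obtain ⟨D⟩ := exists_dat τ hτ hp hsep hub χ hχ1 g
  -- the finer topology
  let W : Finset (G →+ T) → ℕ → Set G := fun F m =>
    {l | (∀ f ∈ F, ‖f l‖ ≤ 1 / (4 * m)) ∧ ∀ N, ‖D.h N l‖ ≤ 1 / (4 * m)}
  have hWmono : ∀ {F F' : Finset (G →+ T)} {m m' : ℕ}, F' ⊆ F → 1 ≤ m' → m' ≤ m → W F m ⊆ W F' m' := by
    intro F F' m m' hF hm hmm l hl
    have hm0 : (0 : ℝ) < m' := by exact_mod_cast hm
    have hmm' : (m' : ℝ) ≤ m := by exact_mod_cast hmm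
    have h1 : 1 / (4 * (m : ℝ)) ≤ 1 / (4 * m') := by
      apply div_le_div_of_nonneg_left (by norm_num) (by positivity)
      linarith
    exact ⟨fun f hf => (hl.1 f (hF hf)).trans h1, fun N => (hl.2 N).trans h1⟩
  have hsum : ∀ (m : ℕ) (x : G →+ T) (a b : G), 1 ≤ m → ‖x a‖ ≤ 1 / (4 * ((2 * m : ℕ) : ℝ)) →
      ‖x b‖ ≤ 1 / (4 * ((2 * m : ℕ) : ℝ)) → ‖x (a + b)‖ ≤ 1 / (4 * m) := by
    intro m x a b hm ha hb
    have hm0 : (0 : ℝ) < m := by exact_mod_cast hm
    rw [map_add]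
    refine (norm_add_le _ _).trans ?_
    have h1 : 1 / (4 * ((2 * m : ℕ) : ℝ)) + 1 / (4 * ((2 * m : ℕ) : ℝ)) = 1 / (4 * m) := by
      push_cast
      field_simp
      norm_num
    linarith
  let Bas : AddGroupFilterBasis G :=
    { sets := {V | ∃ F : Finset (G →+ T), (∀ f ∈ F, f ∈ dual τ) ∧ ∃ m : ℕ, 1 ≤ m ∧ V = W F m}
      nonempty := ⟨_, ∅, by simp, 1, le_rfl, rfl⟩
      inter_sets := by
        rintro _ _ ⟨F, hF, m, hm, rfl⟩ ⟨F', hF', m', hm', rfl⟩
        refine ⟨_, ⟨F ∪ F', fun f hf => ?_, max m m', hm.trans (le_max_left _ _), rfl⟩, ?_⟩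
        · rcases Finset.mem_union.1 hf with h | h
          · exact hF f h
          · exact hF' f h
        · exact Set.subset_inter (hWmono Finset.subset_union_left hm (le_max_left _ _))
            (hWmono Finset.subset_union_right hm' (le_max_right _ _))
      zero' := by
        rintro _ ⟨F, hF, m, hm, rfl⟩
        refine ⟨fun f _ => ?_, fun N => ?_⟩
        · rw [map_zero, norm_zero]; positivity
        · rw [map_zero, norm_zero]; positivity
      add' := by
        rintro _ ⟨F, hF, m, hm, rfl⟩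
        refine ⟨_, ⟨F, hF, 2 * m, by omega, rfl⟩, ?_⟩
        rintro _ ⟨a, ha, b, hb, rfl⟩
        exact ⟨fun f hf => hsum m f a b hm (ha.1 f hf) (hb.1 f hf),
          fun N => hsum m _ a b hm (ha.2 N) (hb.2 N)⟩
      neg' := by
        rintro _ ⟨F, hF, m, hm, rfl⟩
        refine ⟨_, ⟨F, hF, m, hm, rfl⟩, ?_⟩
        intro l hl
        refine ⟨fun f hf => ?_, fun N => ?_⟩
        · rw [map_neg, norm_neg]; exact hl.1 f hf
        · rw [map_neg, norm_neg]; exact hl.2 N
      conj' := by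
        rintro x0 _ ⟨F, hF, m, hm, rfl⟩
        refine ⟨_, ⟨F, hF, m, hm, rfl⟩, ?_⟩
        intro y hy
        have h1 : x0 + y + -x0 = y := by abel
        refine Set.mem_preimage.2 ?_
        rw [h1]
        exact hy }
  have hmem : ∀ {V : Set G}, V ∈ Bas ↔ ∃ F : Finset (G →+ T), (∀ f ∈ F, f ∈ dual τ) ∧ ∃ m : ℕ, 1 ≤ m ∧
      V = W F m := Iff.rfl
  obtain ⟨σ, hσdef⟩ : ∃ σ : TopologicalSpace G, σ = Bas.topology := ⟨_, rfl⟩
  have hσ : @IsTopologicalAddGroup G σ _ := by rw [hσdef]; exact Bas.isTopologicalAddGroup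
  have hb : (@nhds G σ 0).HasBasis (fun S => S ∈ Bas) id := by
    rw [hσdef]; exact Bas.nhds_zero_hasBasis
  -- `σ` is finer than `τ`
  have hle : σ ≤ τ := by
    refine le_of_zero σ τ hσ hτ ?_
    intro U hU
    obtain ⟨F, hFH, hF2⟩ := hbohr U hU
    refine mem_of_superset (hb.mem_of_mem (hmem.2 ⟨F, hFH, 1, le_rfl, rfl⟩)) ?_
    intro l hl
    refine hF2 l fun f hf => ?_
    have := hl.1 f hf
    simpa using this
  have hσT2 : @T2Space G σ := @t2Space_antitone G σ τ hle hT2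
  have hHσ : ∀ x ∈ dual τ, @Continuous G T σ _ x := fun x hx => continuous_le_dom hle (mem_dual.1 hx)
  refine ⟨σ, hσ, hσT2, ?_, ?_, hle, ?_⟩
  · -- locally quasi-convex
    intro U hU
    obtain ⟨V, hV, hVU⟩ := hb.mem_iff.1 hU
    refine ⟨V, hb.mem_of_mem hV, hVU, ?_⟩
    obtain ⟨F, hF, m, hm, rfl⟩ := hmem.1 hV
    have hm0 : (0 : ℝ) < m := by exact_mod_cast hm
    intro l hl
    obtain ⟨f, hfH, hf1, hf2⟩ : ∃ f ∈ dual τ, (∀ w ∈ W F m, ‖f w‖ ≤ 1 / (4 * m)) ∧
        1 / (4 * m) < ‖f l‖ := by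
      by_contra hcon
      push Not at hcon
      apply hl
      exact ⟨fun f hf => hcon f (hF f hf) fun w hw => hw.1 f hf,
        fun N => hcon _ (D.hh N) fun w hw => hw.2 N⟩
    obtain ⟨k, hk, hk2⟩ := exists_mult hm hf2
    refine ⟨k • f, hHσ _ ((dual τ).nsmul_mem hfH k), fun w hw => ?_, fun hcon => ?_⟩
    · rw [mem_Tplus]
      change ‖k • f w‖ ≤ 1 / 4
      have h1 := hf1 w hw
      have h2 := nsmul_norm_le k (f w)
      refine h2.trans ?_
      have hk' : (k : ℝ) ≤ m := by exact_mod_cast hk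
      calc (k : ℝ) * ‖f w‖ ≤ m * (1 / (4 * m)) := mul_le_mul hk' h1 (norm_nonneg _) hm0.le
        _ = 1 / 4 := by field_simp
    · rw [mem_Tplus] at hcon
      exact absurd hk2 (not_lt.2 hcon)
  · -- compatible
    intro x
    constructor
    · intro hx
      have h1 : {l : G | ‖x l‖ ≤ 1 / 8} ∈ @nhds G σ 0 := by
        refine mem_of_superset (dual_ball σ (mem_dual.2 hx) (δ := 1 / 8) (by norm_num)) ?_
        intro l hl
        have hl' : ‖x l‖ < 1 / 8 := hl
        exact hl'.le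
      obtain ⟨V, hV, hVU⟩ := hb.mem_iff.1 h1
      obtain ⟨F, hF, m, hm, rfl⟩ := hmem.1 hV
      exact mem_dual_of_hyp D hτ hχ2 hg hF hm fun a ha1 ha2 => hVU ⟨ha1, ha2⟩
    · intro hx
      exact continuous_le_dom hle hx
  · -- not coarser
    intro hτσ
    have h1 : W ∅ 1 ∈ @nhds G τ 0 :=
      (nhds_mono hτσ) (hb.mem_of_mem (hmem.2 ⟨∅, by simp, 1, by norm_num, rfl⟩))
    have h2 := polar_nhds_finite τ hτ hp _ h1
    have h3 : Set.range D.h ⊆ {x : G →+ T | ∀ a ∈ W ∅ 1, ‖x a‖ ≤ 1 / 4} := by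
      rintro _ ⟨n, rfl⟩ a ha
      simpa using ha.2 n
    have hlt : ∀ m n, m < n → D.h m ≠ D.h n := by
      intro m n hmn he
      have h4 := D.hsmall n _ (F_mono D hmn (D.tmem m))
      rw [← he] at h4
      have h5 := D.hlow m
      have h6 : kap n < 1 / (2 * ((m : ℝ) + 2)) := by
        unfold kap
        have h7 : ((1 : ℝ) / 4) ^ (n + 1) ≤ 1 / 4 := by
          calc ((1 : ℝ) / 4) ^ (n + 1) ≤ (1 / 4) ^ 1 :=
                pow_le_pow_of_le_one (by norm_num) (by norm_num) (by omega)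
            _ = 1 / 4 := by norm_num
        have h8 : (m : ℝ) + 1 ≤ n := by exact_mod_cast hmn
        rw [div_lt_div_iff₀ (by positivity) (by positivity)]
        nlinarith [Nat.cast_nonneg (α := ℝ) m]
      linarith
    have hinj : Function.Injective D.h := by
      intro m n hmn
      by_contra hne
      rcases lt_or_gt_of_ne hne with h | h
      · exact hlt m n h hmn
      · exact hlt n m h hmn.symm
    exact Set.infinite_range_of_injective hinj (h2.subset h3)

end Pool.Agent.H85.MK
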