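import Pool.Agent.H85.MK.Seq

/-!
# Level sets
-/

set_option autoImplicit false

open Filter Topology Pointwise

namespace Pool.Agent.H85.MK

open Pool.Agent.R821 (T exists_real norm_coe_le zsmul_norm_le norm_le_of_mult exists_mult
  eq_zero_of_small exists_char_ne_zero exists_char_sep norm_coe_eq)

universe u

theorem norm_le_half (y : T) : ‖y‖ ≤ 1 / 2 := by
  obtain ⟨r, -, h1, h2⟩ := exists_real y
  rw [← h1]; exact h2

/-- if the multiples `k • y`, `k ≤ n`, have norm at most `ρ ≤ 1/4` then `n ‖y‖ ≤ ρ` -/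
theorem mult_le {y : T} {n : ℕ} {ρ : ℝ} (hn : 1 ≤ n) (hρ : ρ ≤ 1 / 4)
    (h : ∀ k : ℕ, k ≤ n → ‖k • y‖ ≤ ρ) : (n : ℝ) * ‖y‖ ≤ ρ := by
  have h1 := norm_le_of_mult hn fun k hk => (h k hk).trans hρ
  obtain ⟨r, rfl, hr, hr2⟩ := exists_real y
  have hn0 : (0 : ℝ) < n := by exact_mod_cast hn
  have h2 := h n le_rfl
  rw [← hr] at h1 ⊢
  rw [le_div_iff₀ (by positivity)] at h1
  have h3 : |(n : ℝ) * r| = n * |r| := by rw [abs_mul, abs_of_pos hn0]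
  rw [← AddCircle.coe_nsmul, nsmul_eq_mul, norm_coe_eq (by rw [h3]; linarith), h3] at h2
  exact h2

variable {G : Type u} [AddCommGroup G] {τ : TopologicalSpace G} {χ : ℕ → (G →+ T)} {g : ℕ → G}
  (D : Dat τ χ g)

theorem F_mono {m n : ℕ} (h : m ≤ n) : D.F m ⊆ D.F n := by
  induction n, h using Nat.le_induction with
  | base => exact fun _ h => h
  | succ n _ ih => exact ih.trans (D.Fmono n)

theorem Φ_mono {m n : ℕ} (h : m ≤ n) : D.Φ m ⊆ D.Φ n := by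
  induction n, h using Nat.le_induction with
  | base => exact fun _ h => h
  | succ n _ ih => exact ih.trans (D.Φmono n)

/-- the elements of level `m` -/
def Lev (δ : ℝ) (m : ℕ) : Set G :=
  {u | (∀ φ ∈ D.Φ m, ‖φ u‖ ≤ (1 / 2) ^ m) ∧ (∀ n, m < n → ‖D.h n u‖ ≤ (1 / 2) ^ m) ∧ ‖D.h m u‖ ≤ δ}

theorem zero_mem_Lev {δ : ℝ} (hδ : 0 ≤ δ) (m : ℕ) : (0 : G) ∈ Lev D δ m := by
  refine ⟨fun φ _ => ?_, fun n _ => ?_, ?_⟩
  · rw [map_zero, norm_zero]; positivity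
  · rw [map_zero, norm_zero]; positivity
  · rw [map_zero, norm_zero]; exact hδ

theorem neg_mem_Lev {δ : ℝ} {m : ℕ} {u : G} (hu : u ∈ Lev D δ m) : -u ∈ Lev D δ m := by
  refine ⟨fun φ hφ => ?_, fun n hn => ?_, ?_⟩
  · rw [map_neg, norm_neg]; exact hu.1 φ hφ
  · rw [map_neg, norm_neg]; exact hu.2.1 n hn
  · rw [map_neg, norm_neg]; exact hu.2.2

theorem h_le {δ : ℝ} {m : ℕ} {u : G} (hu : u ∈ Lev D δ m) (n : ℕ) :
    ‖D.h n u‖ ≤ (1 / 2) ^ m + if m = n then δ else 0 := by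
  rcases lt_trichotomy n m with h | h | h
  · have h1 : D.h n ∈ D.Φ m := Φ_mono D (Nat.succ_le_of_lt h) (D.hmem n)
    rw [if_neg (by omega), add_zero]
    exact hu.1 _ h1
  · subst h
    rw [if_pos rfl]
    have : (0 : ℝ) < (1 / 2) ^ n := by positivity
    linarith [hu.2.2]
  · rw [if_neg (by omega), add_zero]
    exact hu.2.1 n h

/-- the hypothesis on the character `x` -/
def Hyp (P : Finset (G →+ T)) (k : ℕ) (x : G →+ T) : Prop :=
  ∀ a : G, (∀ f ∈ P, ‖f a‖ ≤ 1 / (4 * k)) → (∀ n, ‖D.h n a‖ ≤ 1 / (4 * k)) → ‖x a‖ ≤ 1 / 8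

variable {P : Finset (G →+ T)} {k : ℕ} {x : G →+ T}

theorem sum_le (hx : Hyp D P k x) (hk : 1 ≤ k) {m1 m2 : ℕ} (hP : P ⊆ D.Φ m1) (h12 : m1 ≤ m2)
    (hm2 : 2 * ((1 : ℝ) / 2) ^ m2 ≤ 1 / (8 * k)) (c : ℕ → G)
    (hc : ∀ m, m2 ≤ m → c m ∈ Lev D (1 / (8 * k)) m) (a b : ℕ) (ha : m2 ≤ a) :
    ‖x (∑ m ∈ Finset.Ico a b, c m)‖ ≤ 1 / 8 := by
  have hk0 : (0 : ℝ) < k := by exact_mod_cast hk
  have hkk : 1 / (8 * (k : ℝ)) + 1 / (8 * k) = 1 / (4 * k) := by field_simp; norm_num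
  have hpos : 0 < 1 / (8 * (k : ℝ)) := by positivity
  have hgeo : ∑ i ∈ Finset.Ico a b, ((1 : ℝ) / 2) ^ i ≤ 1 / (8 * k) := by
    refine (geo_le a b).trans (le_trans ?_ hm2)
    have := pow_le_pow_of_le_one (a := (1 : ℝ) / 2) (by norm_num) (by norm_num) ha
    linarith
  refine hx _ (fun f hf => ?_) fun n => ?_
  · rw [map_sum]
    refine (norm_sum_le _ _).trans ?_
    refine (Finset.sum_le_sum fun m hm => ?_).trans (hgeo.trans (by linarith))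
    rw [Finset.mem_Ico] at hm
    exact (hc m (by omega)).1 f (Φ_mono D (by omega) (hP hf))
  · rw [map_sum]
    refine (norm_sum_le _ _).trans ?_
    refine (Finset.sum_le_sum fun m hm => h_le D (hc m (ha.trans (Finset.mem_Ico.1 hm).1)) n).trans ?_
    rw [Finset.sum_add_distrib]
    have h1 : ∑ m ∈ Finset.Ico a b, (if m = n then 1 / (8 * (k : ℝ)) else 0) ≤ 1 / (8 * k) := by
      rw [Finset.sum_ite_eq' (Finset.Ico a b) n]
      split_ifs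
      · exact le_rfl
      · exact hpos.le
    linarith

/-- the supremum of `‖x u‖` on level `m` -/
noncomputable def rr (x : G →+ T) (δ : ℝ) (m : ℕ) : ℝ := sSup ((fun u => ‖x u‖) '' Lev D δ m)

theorem bddAbove_rr (δ : ℝ) (m : ℕ) : BddAbove ((fun u => ‖x u‖) '' Lev D δ m) :=
  ⟨1 / 2, by rintro _ ⟨u, -, rfl⟩; exact norm_le_half _⟩

theorem le_rr {δ : ℝ} {m : ℕ} {u : G} (hu : u ∈ Lev D δ m) : ‖x u‖ ≤ rr D x δ m :=
  le_csSup (bddAbove_rr D δ m) ⟨u, hu, rfl⟩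

theorem rr_nonneg {δ : ℝ} (hδ : 0 ≤ δ) (m : ℕ) : 0 ≤ rr D x δ m :=
  (norm_nonneg _).trans (le_rr D (zero_mem_Lev D hδ m))

theorem exists_near {δ : ℝ} (hδ : 0 ≤ δ) (m : ℕ) :
    ∃ u ∈ Lev D δ m, ∃ ρ : ℝ, 0 ≤ ρ ∧ x u = (ρ : T) ∧ ρ = ‖x u‖ ∧ rr D x δ m ≤ 2 * ρ := by
  obtain ⟨u, hu, hur⟩ : ∃ u ∈ Lev D δ m, rr D x δ m ≤ 2 * ‖x u‖ := by
    rcases (rr_nonneg D (x := x) hδ m).eq_or_lt with h | h
    · refine ⟨0, zero_mem_Lev D hδ m, ?_⟩
      rw [← h, map_zero, norm_zero, mul_zero]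
    · have h1 : rr D x δ m / 2 < rr D x δ m := by linarith
      obtain ⟨_, ⟨u, hu, rfl⟩, h2⟩ := exists_lt_of_lt_csSup
        (Set.Nonempty.image _ ⟨0, zero_mem_Lev D hδ m⟩) h1
      exact ⟨u, hu, by linarith⟩
  obtain ⟨r, hr, hr1, hr2⟩ := exists_real (x u)
  rcases le_total 0 r with h | h
  · exact ⟨u, hu, r, h, hr.symm, by rw [← hr1, abs_of_nonneg h], by
      rw [← hr1, abs_of_nonneg h] at hur; exact hur⟩
  · refine ⟨-u, neg_mem_Lev D hu, -r, by linarith, ?_, ?_, ?_⟩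
    · rw [map_neg, ← hr, AddCircle.coe_neg]
    · rw [map_neg, norm_neg, ← hr1, abs_of_nonpos h]
    · rw [← hr1, abs_of_nonpos h] at hur; exact hur

theorem rr_le_eighth (hx : Hyp D P k x) (hk : 1 ≤ k) {m1 m2 : ℕ} (hP : P ⊆ D.Φ m1) (h12 : m1 ≤ m2)
    (hm2 : 2 * ((1 : ℝ) / 2) ^ m2 ≤ 1 / (8 * k)) {m : ℕ} (hm : m2 ≤ m) :
    rr D x (1 / (8 * k)) m ≤ 1 / 8 := by
  classical
  have hk0 : (0 : ℝ) < k := by exact_mod_cast hk
  have hδ : (0 : ℝ) ≤ 1 / (8 * k) := by positivity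
  refine csSup_le (Set.Nonempty.image _ ⟨0, zero_mem_Lev D hδ m⟩) ?_
  rintro _ ⟨u, hu, rfl⟩
  have h1 := sum_le D hx hk hP h12 hm2 (fun i => if i = m then u else 0) (fun i _ => ?_) m (m + 1) hm
  · simpa using h1
  · by_cases h : i = m
    · subst h; simpa using hu
    · simp only [h, if_false]
      exact zero_mem_Lev D hδ i

/-- the sum of the `rr` is bounded -/
theorem sum_rr_le (hx : Hyp D P k x) (hk : 1 ≤ k) {m1 m2 : ℕ} (hP : P ⊆ D.Φ m1) (h12 : m1 ≤ m2)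
    (hm2 : 2 * ((1 : ℝ) / 2) ^ m2 ≤ 1 / (8 * k)) (b : ℕ) :
    ∑ m ∈ Finset.Ico m2 b, rr D x (1 / (8 * k)) m ≤ 1 / 4 := by
  have hk0 : (0 : ℝ) < k := by exact_mod_cast hk
  have hδ : (0 : ℝ) ≤ 1 / (8 * k) := by positivity
  choose u hu ρ hρ0 hρ hρ1 hρ2 using fun m => exists_near D (x := x) hδ m
  have hρ8 : ∀ m, m2 ≤ m → ρ m ≤ 1 / 8 := by
    intro m hm
    rw [hρ1 m]
    exact (le_rr D (hu m)).trans (rr_le_eighth D hx hk hP h12 hm2 hm)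
  have key : ∀ b, ∑ m ∈ Finset.Ico m2 b, ρ m ≤ 1 / 8 := by
    intro b
    rcases le_total b m2 with hb | hb
    · rw [Finset.Ico_eq_empty_of_le hb, Finset.sum_empty]; norm_num
    induction b, hb using Nat.le_induction with
    | base => rw [Finset.Ico_self, Finset.sum_empty]; norm_num
    | succ b hb ih =>
      have h1 : ∑ m ∈ Finset.Ico m2 (b + 1), ρ m ≤ 1 / 4 := by
        rw [Finset.sum_Ico_succ_top hb]
        linarith [hρ8 b hb]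
      have h0 : 0 ≤ ∑ m ∈ Finset.Ico m2 (b + 1), ρ m := Finset.sum_nonneg fun m _ => hρ0 m
      have h2 := sum_le D hx hk hP h12 hm2 u (fun m _ => hu m) m2 (b + 1) le_rfl
      have h3 : x (∑ m ∈ Finset.Ico m2 (b + 1), u m) =
          ((∑ m ∈ Finset.Ico m2 (b + 1), ρ m : ℝ) : T) := by
        rw [map_sum]
        have : ((∑ m ∈ Finset.Ico m2 (b + 1), ρ m : ℝ) : T) =
            ∑ m ∈ Finset.Ico m2 (b + 1), ((ρ m : ℝ) : T) :=
          map_sum (QuotientAddGroup.mk' (AddSubgroup.zmultiples (1 : ℝ))) _ _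
        rw [this]
        exact Finset.sum_congr rfl fun m _ => hρ m
      rw [h3, norm_coe_eq (by rw [abs_of_nonneg h0]; linarith), abs_of_nonneg h0] at h2
      exact h2
  calc ∑ m ∈ Finset.Ico m2 b, rr D x (1 / (8 * k)) m ≤ ∑ m ∈ Finset.Ico m2 b, 2 * ρ m :=
        Finset.sum_le_sum fun m _ => hρ2 m
    _ = 2 * ∑ m ∈ Finset.Ico m2 b, ρ m := by rw [Finset.mul_sum]
    _ ≤ 1 / 4 := by linarith [key b]

end Pool.Agent.H85.MK
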