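import Pool.Agent.H85.MK.Basic

/-!
# Characters of small value with a controlled value
-/

set_option autoImplicit false

open Filter Topology Pointwise

namespace Pool.Agent.H85.MK

open Pool.Agent.R821 (T exists_real norm_coe_le zsmul_norm_le norm_le_of_mult exists_mult
  eq_zero_of_small exists_char_ne_zero exists_char_sep norm_coe_eq)

universe u

theorem nsmul_norm_le (l : ℕ) (x : T) : ‖l • x‖ ≤ (l : ℝ) * ‖x‖ := by
  have := zsmul_norm_le (l : ℤ) x
  rwa [natCast_zsmul, Int.cast_natCast, abs_of_nonneg (Nat.cast_nonneg l)] at this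

/-- if the first multiples of `y` avoid the window `[1/(2N), 1/N]` then a fixed multiple is small -/
theorem mult_small {y : T} {N M : ℕ} (hN : 2 ≤ N) (hM : M = (2 * N).factorial)
    (h : ∀ j : ℕ, j ≤ 4 * N * M → ‖j • y‖ < 1 / (2 * N) ∨ 1 / N < ‖j • y‖) : ‖M • y‖ ≤ 1 / 4 := by
  have hN0 : (2 : ℝ) ≤ N := by exact_mod_cast hN
  obtain ⟨j0, hj0, hj⟩ := AddCircle.exists_norm_nsmul_le (T := (1 : ℝ)) y (n := 2 * N) (by omega)
  rw [Set.mem_Icc] at hj0
  obtain ⟨r, hr, hr1, -⟩ := exists_real (j0 • y)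
  have hr2 : |r| < 1 / (2 * N) := by
    rw [hr1]
    refine lt_of_le_of_lt hj ?_
    push_cast
    apply div_lt_div_of_pos_left (by norm_num) (by positivity) (by linarith)
  have key : ∀ i : ℕ, i ≤ 2 * M → (i : ℝ) * |r| < 1 / (2 * N) := by
    intro i
    induction i with
    | zero => intro _; simp only [Nat.cast_zero, zero_mul]; positivity
    | succ i ih =>
      intro hi
      have h1 := ih (by omega)
      have h2 : ((i + 1 : ℕ) : ℝ) * |r| < 1 / N := by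
        have e : (1 : ℝ) / N = 1 / (2 * N) + 1 / (2 * N) := by field_simp; norm_num
        rw [e]
        push_cast
        linarith
      have h3 : (1 : ℝ) / N ≤ 1 / 2 := one_div_le_one_div_of_le (by norm_num) hN0
      have h4 : ‖((i + 1) * j0) • y‖ = ((i + 1 : ℕ) : ℝ) * |r| := by
        rw [mul_smul, ← hr, ← AddCircle.coe_nsmul, nsmul_eq_mul]
        have h5 : |((i + 1 : ℕ) : ℝ) * r| = ((i + 1 : ℕ) : ℝ) * |r| := by
          rw [abs_mul, abs_of_nonneg (Nat.cast_nonneg _)]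
        rw [norm_coe_eq (by rw [h5]; linarith), h5]
      have h5 : (i + 1) * j0 ≤ 4 * N * M := by
        calc (i + 1) * j0 ≤ (2 * M) * (2 * N) := Nat.mul_le_mul hi hj0.2
          _ = 4 * N * M := by ring
      rcases h _ h5 with h6 | h6
      · rwa [h4] at h6
      · rw [h4] at h6
        linarith
  have h1 := key (2 * M) le_rfl
  obtain ⟨c, hc⟩ : j0 ∣ M := hM ▸ Nat.dvd_factorial hj0.1 hj0.2
  have h2 : M • y = c • (j0 • y) := by
    rw [← mul_smul, hc, mul_comm]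
  rw [h2]
  refine (nsmul_norm_le _ _).trans ?_
  rw [← hr1]
  have hcM : (c : ℝ) ≤ M := by
    have h3 : c ≤ M := by
      rw [hc]
      exact Nat.le_mul_of_pos_left c hj0.1
    exact_mod_cast h3
  have h4 : (1 : ℝ) / (2 * N) ≤ 1 / 4 := one_div_le_one_div_of_le (by norm_num) (by linarith)
  have h5 : (c : ℝ) * |r| ≤ M * |r| := mul_le_mul_of_nonneg_right hcM (abs_nonneg _)
  push_cast at h1
  nlinarith [abs_nonneg r]

variable {G : Type u} [AddCommGroup G]

theorem bohr_mem (τ : TopologicalSpace G) (Φ : Finset (G →+ T)) (hΦ : ∀ φ ∈ Φ, φ ∈ dual τ) {ε : ℝ}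
    (hε : 0 < ε) : {t : G | ∀ φ ∈ Φ, ‖φ t‖ ≤ ε} ∈ @nhds G τ 0 := by
  have h1 : (⋂ φ ∈ Φ, {t : G | ‖φ t‖ < ε}) ∈ @nhds G τ 0 :=
    (Filter.biInter_finset_mem _).2 fun φ hφ => dual_ball τ (hΦ φ hφ) hε
  refine mem_of_superset h1 fun t ht φ hφ => ?_
  have := Set.mem_iInter₂.1 ht φ hφ
  exact le_of_lt this

/-- In a precompact group of unbounded exponent there are characters which are small on a given finite
set and take a value of size about `1/N` on some element of a given neighbourhood of zero. -/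
theorem exists_pair (τ : TopologicalSpace G) (hτ : @IsTopologicalAddGroup G τ _)
    (hp : PrecompactTop τ) (hsep : ∀ g : G, g ≠ 0 → ∃ χ ∈ dual τ, χ g ≠ 0)
    (hub : ∀ M : ℕ, 1 ≤ M → ∃ g : G, M • g ≠ 0) (F : Finset G) (Φ : Finset (G →+ T))
    (hΦ : ∀ φ ∈ Φ, φ ∈ dual τ) {ε : ℝ} (hε : 0 < ε) {N : ℕ} (hN : 2 ≤ N) :
    ∃ h ∈ dual τ, (∀ f ∈ F, ‖h f‖ ≤ ε) ∧ ∃ t : G, (∀ φ ∈ Φ, ‖φ t‖ ≤ ε) ∧
      1 / (2 * (N : ℝ)) ≤ ‖h t‖ ∧ ‖h t‖ ≤ 1 / N := by
  classical
  by_contra hcon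
  push Not at hcon
  obtain ⟨M, hM⟩ : ∃ M, M = (2 * N).factorial := ⟨_, rfl⟩
  have hM1 : 1 ≤ M := by rw [hM]; exact Nat.one_le_iff_ne_zero.2 (Nat.factorial_ne_zero _)
  have hK : 0 < 4 * N * M := by positivity
  have hK0 : (0 : ℝ) < ((4 * N * M : ℕ) : ℝ) := by exact_mod_cast hK
  obtain ⟨A, hAdef⟩ : ∃ A : Set G, A = {t : G | ∀ φ ∈ Φ, ‖φ t‖ ≤ ε / ((4 * N * M : ℕ) : ℝ)} := ⟨_, rfl⟩
  have hA : A ∈ @nhds G τ 0 := by
    rw [hAdef]; exact bohr_mem τ Φ hΦ (div_pos hε hK0)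
  have hP := polar_nhds_finite τ hτ hp A hA
  have hW : ∀ h ∈ dual τ, (∀ f ∈ F, ‖h f‖ ≤ ε) → M • h ∈ {x : G →+ T | ∀ a ∈ A, ‖x a‖ ≤ 1 / 4} := by
    intro h hh hF t ht
    have e : (M • h) t = M • h t := rfl
    rw [e]
    refine mult_small hN hM fun j hj => ?_
    by_cases hlt : ‖j • h t‖ < 1 / (2 * N)
    · exact Or.inl hlt
    · right
      rw [not_lt] at hlt
      have h1 := hcon h hh hF (j • t) (fun φ hφ => ?_) (by rw [map_nsmul]; exact hlt)
      · rwa [map_nsmul] at h1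
      · rw [map_nsmul]
        refine (nsmul_norm_le _ _).trans ?_
        rw [hAdef] at ht
        have h2 := ht φ hφ
        have hj' : (j : ℝ) ≤ ((4 * N * M : ℕ) : ℝ) := by exact_mod_cast hj
        calc (j : ℝ) * ‖φ t‖ ≤ ((4 * N * M : ℕ) : ℝ) * (ε / ((4 * N * M : ℕ) : ℝ)) :=
              mul_le_mul hj' h2 (norm_nonneg _) hK0.le
          _ = ε := by field_simp
  obtain ⟨E, hE, hnet⟩ := exists_net F (fun (p : dual τ) (g : G) => (p : G →+ T) g) ε hε
  have hfin : (((dual τ).map (nsmulAddMonoidHom M) : AddSubgroup (G →+ T)) : Set (G →+ T)).Finite := by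
    refine ((hE.image fun e : dual τ => M • (e : G →+ T)).add hP).subset ?_
    rintro _ ⟨h, hh, rfl⟩
    obtain ⟨e, he, hhe⟩ := hnet ⟨h, hh⟩
    refine ⟨M • (e : G →+ T), ⟨e, he, rfl⟩, M • (h - e), hW _ ((dual τ).sub_mem hh e.2) ?_, ?_⟩
    · intro f hf
      exact hhe f hf
    · change M • (e : G →+ T) + M • (h - (e : G →+ T)) = M • h
      ext g
      change M • (e : G →+ T) g + M • (h g - (e : G →+ T) g) = M • h g
      rw [← smul_add]
      congr 1
      abel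
  have hF : Finite ((dual τ).map (nsmulAddMonoidHom M) : AddSubgroup (G →+ T)) := hfin.to_subtype
  obtain ⟨c, hcdef⟩ : ∃ c, c = Nat.card ((dual τ).map (nsmulAddMonoidHom M) : AddSubgroup (G →+ T)) :=
    ⟨_, rfl⟩
  have hc : 0 < c := by rw [hcdef]; exact Nat.card_pos
  obtain ⟨g, hg⟩ := hub (c * M) (Nat.mul_pos hc hM1)
  obtain ⟨χ, hχ, hχg⟩ := hsep _ hg
  apply hχg
  have h1 : c • (⟨M • χ, ⟨χ, hχ, rfl⟩⟩ : ((dual τ).map (nsmulAddMonoidHom M) : AddSubgroup (G →+ T))) =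
      0 := by
    rw [hcdef]; exact card_nsmul_eq_zero'
  have h2 : c • (M • χ) = 0 := congrArg Subtype.val h1
  rw [map_nsmul, mul_smul]
  have h3 := DFunLike.congr_fun h2 g
  exact h3

end Pool.Agent.H85.MK
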