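import Pool.Agent.H85.MK.Pair

/-!
# The sequence of characters
-/

set_option autoImplicit false

open Filter Topology Pointwise

namespace Pool.Agent.H85.MK

open Pool.Agent.R821 (T exists_real norm_coe_le zsmul_norm_le norm_le_of_mult exists_mult
  eq_zero_of_small exists_char_ne_zero exists_char_sep norm_coe_eq)

universe u

noncomputable def kap (n : ℕ) : ℝ := (1 / 4) ^ (n + 1) / (n + 4)

theorem kap_pos (n : ℕ) : 0 < kap n := by unfold kap; positivity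

theorem kap_mul (n : ℕ) : ((n : ℝ) + 4) * kap n = (1 / 4) ^ (n + 1) := by
  unfold kap
  field_simp

theorem quarter_le (n : ℕ) : ((1 : ℝ) / 4) ^ (n + 1) ≤ (1 / 2) ^ n := by
  calc ((1 : ℝ) / 4) ^ (n + 1) ≤ (1 / 4) ^ n :=
        pow_le_pow_of_le_one (by norm_num) (by norm_num) (by omega)
    _ ≤ (1 / 2) ^ n := pow_le_pow_left₀ (by norm_num) (by norm_num) n

theorem kap_mul_le {n m : ℕ} (h : m ≤ n) : ((n : ℝ) + 4) * kap n ≤ (1 / 2) ^ m := by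
  rw [kap_mul]
  exact (quarter_le n).trans (pow_le_pow_of_le_one (by norm_num) (by norm_num) h)

theorem kap_le (n : ℕ) : kap n ≤ (1 / 2) ^ n / 4 := by
  have h1 := kap_mul_le (le_refl n)
  have h2 := kap_pos n
  have h3 : (0 : ℝ) ≤ n := Nat.cast_nonneg n
  nlinarith

theorem kap_le' {n m : ℕ} (h : m ≤ n) : kap n ≤ (1 / 2) ^ m := by
  have h1 := kap_le n
  have h2 : ((1 : ℝ) / 2) ^ n ≤ (1 / 2) ^ m := pow_le_pow_of_le_one (by norm_num) (by norm_num) h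
  have h3 : (0 : ℝ) < (1 / 2) ^ n := by positivity
  linarith

theorem kap_le_inv (n : ℕ) : kap n ≤ 1 / (n + 2) := by
  unfold kap
  have h1 : ((1 : ℝ) / 4) ^ (n + 1) ≤ 1 := pow_le_one₀ (by norm_num) (by norm_num)
  rw [div_le_div_iff₀ (by positivity) (by positivity)]
  have h3 : (0 : ℝ) ≤ n := Nat.cast_nonneg n
  nlinarith

theorem geo {a b : ℕ} (h : a ≤ b) :
    ∑ i ∈ Finset.Ico a b, ((1 : ℝ) / 2) ^ i = 2 * (1 / 2) ^ a - 2 * (1 / 2) ^ b := by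
  induction b, h using Nat.le_induction with
  | base => simp
  | succ b hb ih =>
    rw [Finset.sum_Ico_succ_top hb, ih]
    ring

theorem geo_le (a b : ℕ) : ∑ i ∈ Finset.Ico a b, ((1 : ℝ) / 2) ^ i ≤ 2 * (1 / 2) ^ a := by
  rcases le_total a b with h | h
  · rw [geo h]
    have : (0 : ℝ) < (1 / 2) ^ b := by positivity
    linarith
  · rw [Finset.Ico_eq_empty_of_le h, Finset.sum_empty]
    positivity

variable {G : Type u} [AddCommGroup G]

/-- the data of the construction -/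
structure Dat (τ : TopologicalSpace G) (χ : ℕ → (G →+ T)) (g : ℕ → G) where
  h : ℕ → (G →+ T)
  t : ℕ → G
  F : ℕ → Finset G
  Φ : ℕ → Finset (G →+ T)
  hh : ∀ n, h n ∈ dual τ
  hΦ : ∀ n, ∀ φ ∈ Φ n, φ ∈ dual τ
  Fmono : ∀ n, F n ⊆ F (n + 1)
  Φmono : ∀ n, Φ n ⊆ Φ (n + 1)
  χmem : ∀ n, χ n ∈ Φ (n + 1)
  hmem : ∀ n, h n ∈ Φ (n + 1)
  gmem : ∀ n, g n ∈ F (n + 1)
  tmem : ∀ n, t n ∈ F (n + 1)
  net : ∀ n, ∀ a : G, ∃ e ∈ F n, ∀ φ ∈ Φ n, ‖φ (a - e)‖ ≤ kap n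
  hsmall : ∀ n, ∀ f ∈ F n, ‖h n f‖ ≤ kap n
  tsmall : ∀ n, ∀ φ ∈ Φ n, ‖φ (t n)‖ ≤ kap n
  hlow : ∀ n : ℕ, 1 / (2 * ((n : ℝ) + 2)) ≤ ‖h n (t n)‖
  hup : ∀ n : ℕ, ‖h n (t n)‖ ≤ 1 / ((n : ℝ) + 2)

def Good (τ : TopologicalSpace G) (n : ℕ) (s : Finset G × Finset (G →+ T)) : Prop :=
  (∀ φ ∈ s.2, φ ∈ dual τ) ∧ ∀ a : G, ∃ e ∈ s.1, ∀ φ ∈ s.2, ‖φ (a - e)‖ ≤ kap n

theorem exists_dat (τ : TopologicalSpace G) (hτ : @IsTopologicalAddGroup G τ _)
    (hp : PrecompactTop τ) (hsep : ∀ g : G, g ≠ 0 → ∃ χ ∈ dual τ, χ g ≠ 0)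
    (hub : ∀ M : ℕ, 1 ≤ M → ∃ g : G, M • g ≠ 0) (χ : ℕ → (G →+ T)) (hχ : ∀ n, χ n ∈ dual τ)
    (g : ℕ → G) : Nonempty (Dat τ χ g) := by
  classical
  have step : ∀ (n : ℕ) (s : Finset G × Finset (G →+ T)), Good τ n s →
      ∃ (h : G →+ T) (t : G) (s' : Finset G × Finset (G →+ T)), Good τ (n + 1) s' ∧
        h ∈ dual τ ∧ s.1 ⊆ s'.1 ∧ s.2 ⊆ s'.2 ∧ χ n ∈ s'.2 ∧ h ∈ s'.2 ∧ g n ∈ s'.1 ∧ t ∈ s'.1 ∧
        (∀ f ∈ s.1, ‖h f‖ ≤ kap n) ∧ (∀ φ ∈ s.2, ‖φ t‖ ≤ kap n) ∧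
        1 / (2 * ((n : ℝ) + 2)) ≤ ‖h t‖ ∧ ‖h t‖ ≤ 1 / ((n : ℝ) + 2) := by
    rintro n ⟨F, Φ⟩ ⟨hΦ, hnet⟩
    obtain ⟨h, hh, hF, t, htΦ, hl, hu⟩ := exists_pair τ hτ hp hsep hub F Φ hΦ (kap_pos n)
      (N := n + 2) (by omega)
    push_cast at hl hu
    obtain ⟨E, hE, hEn⟩ := exists_net (insert (χ n) (insert h Φ)) (fun (a : G) (φ : G →+ T) => φ a)
      (kap (n + 1)) (kap_pos _)
    refine ⟨h, t, (F ∪ {g n, t} ∪ hE.toFinset, insert (χ n) (insert h Φ)), ⟨?_, ?_⟩, hh, ?_, ?_, ?_,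
      ?_, ?_, ?_, hF, htΦ, hl, hu⟩
    · intro φ hφ
      rcases Finset.mem_insert.1 hφ with h1 | h1
      · rw [h1]; exact hχ n
      rcases Finset.mem_insert.1 h1 with h2 | h2
      · rw [h2]; exact hh
      · exact hΦ φ h2
    · intro a
      obtain ⟨e, he, hea⟩ := hEn a
      refine ⟨e, Finset.mem_union_right _ (hE.mem_toFinset.2 he), fun φ hφ => ?_⟩
      rw [map_sub]
      exact hea φ hφ
    · exact Finset.subset_union_left.trans Finset.subset_union_left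
    · exact (Finset.subset_insert _ _).trans (Finset.subset_insert _ _)
    · exact Finset.mem_insert_self _ _
    · exact Finset.mem_insert_of_mem (Finset.mem_insert_self _ _)
    · exact Finset.mem_union_left _ (Finset.mem_union_right _ (by simp))
    · exact Finset.mem_union_left _ (Finset.mem_union_right _ (by simp))
  choose hf tf sf hsf using step
  have h0 : Good τ 0 (({0}, ∅) : Finset G × Finset (G →+ T)) :=
    ⟨by simp, fun a => ⟨0, by simp, by simp⟩⟩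
  let st : (n : ℕ) → {s : Finset G × Finset (G →+ T) // Good τ n s} := fun n =>
    Nat.rec ⟨({0}, ∅), h0⟩ (fun n p => ⟨sf n p.1 p.2, (hsf n p.1 p.2).1⟩) n
  exact ⟨{ h := fun n => hf n (st n).1 (st n).2
           t := fun n => tf n (st n).1 (st n).2
           F := fun n => (st n).1.1
           Φ := fun n => (st n).1.2
           hh := fun n => (hsf n (st n).1 (st n).2).2.1
           hΦ := fun n => (st n).2.1
           Fmono := fun n => (hsf n (st n).1 (st n).2).2.2.1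
           Φmono := fun n => (hsf n (st n).1 (st n).2).2.2.2.1
           χmem := fun n => (hsf n (st n).1 (st n).2).2.2.2.2.1
           hmem := fun n => (hsf n (st n).1 (st n).2).2.2.2.2.2.1
           gmem := fun n => (hsf n (st n).1 (st n).2).2.2.2.2.2.2.1
           tmem := fun n => (hsf n (st n).1 (st n).2).2.2.2.2.2.2.2.1
           net := fun n => (st n).2.2
           hsmall := fun n => (hsf n (st n).1 (st n).2).2.2.2.2.2.2.2.2.1
           tsmall := fun n => (hsf n (st n).1 (st n).2).2.2.2.2.2.2.2.2.2.1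
           hlow := fun n => (hsf n (st n).1 (st n).2).2.2.2.2.2.2.2.2.2.2.1
           hup := fun n => (hsf n (st n).1 (st n).2).2.2.2.2.2.2.2.2.2.2.2 }⟩

end Pool.Agent.H85.MK
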