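import Pool.Agent.H85.MK.Level

/-!
# Splitting and descent
-/

set_option autoImplicit false

open Filter Topology Pointwise

namespace Pool.Agent.H85.MK

open Pool.Agent.R821 (T exists_real norm_coe_le zsmul_norm_le norm_le_of_mult exists_mult
  eq_zero_of_small exists_char_ne_zero exists_char_sep norm_coe_eq)

universe u

variable {G : Type u} [AddCommGroup G] {τ : TopologicalSpace G} {χ : ℕ → (G →+ T)} {g : ℕ → G}
  (D : Dat τ χ g)

/-- an integer multiple `j • t` with `‖y - j • t‖` small -/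
theorem exists_int (y s : T) (m : ℕ) (h1 : 1 / (2 * ((m : ℝ) + 2)) ≤ ‖s‖)
    (h2 : ‖s‖ ≤ 1 / ((m : ℝ) + 2)) : ∃ j : ℤ, |(j : ℝ)| ≤ m + 3 ∧ ‖y - j • s‖ ≤ 1 / ((m : ℝ) + 2) := by
  obtain ⟨a, rfl, ha, ha2⟩ := exists_real y
  obtain ⟨b, rfl, hb, -⟩ := exists_real s
  rw [← hb] at h1 h2
  have hm : (0 : ℝ) < (m : ℝ) + 2 := by positivity
  have hb0 : 0 < |b| := lt_of_lt_of_le (by positivity) h1
  have hb1 : b ≠ 0 := abs_pos.1 hb0
  refine ⟨round (a / b), ?_, ?_⟩
  · have h3 : |(round (a / b) : ℝ)| ≤ |a / b| + 1 / 2 := by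
      have h4 := abs_sub_round (a / b)
      have h5 : (round (a / b) : ℝ) = a / b - (a / b - round (a / b)) := by ring
      rw [h5]
      exact (abs_sub _ _).trans (by linarith)
    have h4 : |a / b| ≤ m + 2 := by
      rw [abs_div, div_le_iff₀ hb0]
      have h5 : ((m : ℝ) + 2) * (1 / (2 * ((m : ℝ) + 2))) = 1 / 2 := by field_simp
      nlinarith
    linarith
  · have h3 : ((a : ℝ) : T) - round (a / b) • ((b : ℝ) : T) = ((a - round (a / b) * b : ℝ) : T) := by
      rw [AddCircle.coe_sub, ← zsmul_eq_mul, AddCircle.coe_zsmul]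
    rw [h3]
    refine (norm_coe_le _).trans ?_
    have h4 : a - round (a / b) * b = (a / b - round (a / b)) * b := by
      field_simp
    rw [h4, abs_mul]
    have h5 := abs_sub_round (a / b)
    nlinarith [abs_nonneg b]

theorem split {δ : ℝ} {x : G →+ T} {k : ℕ} (hk : 1 ≤ k) (hδ : δ = 1 / (8 * k)) {m : ℕ}
    (hm : 8 * k ≤ m + 2) (hr : rr D x δ m ≤ 1 / 8) {a e : G} (ha : a ∈ D.F (m + 1)) (he : e ∈ D.F m)
    (hae : ∀ φ ∈ D.Φ m, ‖φ (a - e)‖ ≤ kap m) :
    ‖x (a - e)‖ ≤ (1 + 16 * k) * rr D x δ m := by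
  have hk0 : (0 : ℝ) < k := by exact_mod_cast hk
  have hδ0 : 0 ≤ δ := by rw [hδ]; positivity
  have hm0 : (8 * (k : ℝ)) ≤ m + 2 := by exact_mod_cast hm
  have hmδ : 1 / ((m : ℝ) + 2) ≤ δ := by
    rw [hδ]; exact one_div_le_one_div_of_le (by positivity) hm0
  have hr0 : 0 ≤ rr D x δ m := rr_nonneg D hδ0 m
  obtain ⟨j, hj, hj2⟩ := exists_int (D.h m (a - e)) (D.h m (D.t m)) m (D.hlow m) (D.hup m)
  have hκ := kap_pos m
  -- the first part
  have hu' : a - e - j • D.t m ∈ Lev D δ m := by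
    refine ⟨fun φ hφ => ?_, fun n hn => ?_, ?_⟩
    · rw [map_sub, map_zsmul]
      refine (norm_sub_le _ _).trans ?_
      have h1 := hae φ hφ
      have h2 : ‖j • φ (D.t m)‖ ≤ (m + 3) * kap m :=
        (zsmul_norm_le _ _).trans (mul_le_mul hj (D.tsmall m φ hφ) (norm_nonneg _) (by positivity))
      have h3 := kap_mul_le (le_refl m)
      linarith
    · have hFn : D.F (m + 1) ⊆ D.F n := F_mono D hn
      have h1 : ‖D.h n a‖ ≤ kap n := D.hsmall n _ (hFn ha)
      have h2 : ‖D.h n e‖ ≤ kap n := D.hsmall n _ (hFn (D.Fmono m he))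
      have h3 : ‖D.h n (D.t m)‖ ≤ kap n := D.hsmall n _ (hFn (D.tmem m))
      rw [map_sub, map_sub, map_zsmul]
      refine (norm_sub_le _ _).trans ?_
      have h4 := norm_sub_le (D.h n a) (D.h n e)
      have h5 : ‖j • D.h n (D.t m)‖ ≤ (m + 3) * kap n :=
        (zsmul_norm_le _ _).trans (mul_le_mul hj h3 (norm_nonneg _) (by positivity))
      have h6 := kap_mul_le (show m ≤ n by omega)
      have h7 : (m : ℝ) + 1 ≤ n := by exact_mod_cast hn
      have h8 := kap_pos n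
      nlinarith
    · rw [map_sub, map_zsmul]
      exact hj2.trans hmδ
  -- the multiples of `t m`
  obtain ⟨q, hq⟩ : ∃ q, q = (m + 2) / (8 * k) := ⟨_, rfl⟩
  have hq1 : 1 ≤ q := by
    rw [hq]; exact (Nat.one_le_div_iff (by omega)).2 hm
  have hqm : q * (8 * k) ≤ m + 2 := by rw [hq]; exact Nat.div_mul_le_self _ _
  have hqm' : m + 2 < (q + 1) * (8 * k) := by
    rw [hq, mul_comm]; exact Nat.lt_mul_div_succ _ (by omega)
  have hqr : (q : ℝ) * (8 * k) ≤ m + 2 := by exact_mod_cast hqm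
  have hit : ∀ i : ℕ, i ≤ q → i • D.t m ∈ Lev D δ m := by
    intro i hi
    have hi1 : (i : ℝ) ≤ q := by exact_mod_cast hi
    have hk1 : (1 : ℝ) ≤ k := by exact_mod_cast hk
    have hi2 : (i : ℝ) ≤ m + 2 := by nlinarith [Nat.cast_nonneg (α := ℝ) q]
    refine ⟨fun φ hφ => ?_, fun n hn => ?_, ?_⟩
    · rw [map_nsmul]
      have h2 : ‖i • φ (D.t m)‖ ≤ (m + 2) * kap m :=
        (nsmul_norm_le _ _).trans (mul_le_mul hi2 (D.tsmall m φ hφ) (norm_nonneg _) (by positivity))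
      have h3 := kap_mul_le (le_refl m)
      linarith
    · rw [map_nsmul]
      have h3 : ‖D.h n (D.t m)‖ ≤ kap n := D.hsmall n _ (F_mono D hn (D.tmem m))
      have h5 : ‖i • D.h n (D.t m)‖ ≤ (m + 2) * kap n :=
        (nsmul_norm_le _ _).trans (mul_le_mul hi2 h3 (norm_nonneg _) (by positivity))
      have h6 := kap_mul_le (show m ≤ n by omega)
      have h7 : (m : ℝ) + 1 ≤ n := by exact_mod_cast hn
      have h8 := kap_pos n
      nlinarith
    · rw [map_nsmul]
      refine (nsmul_norm_le _ _).trans ?_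
      have h5 : (i : ℝ) * ‖D.h m (D.t m)‖ ≤ q * (1 / ((m : ℝ) + 2)) :=
        mul_le_mul hi1 (D.hup m) (norm_nonneg _) (Nat.cast_nonneg _)
      refine h5.trans ?_
      rw [hδ, mul_one_div, div_le_div_iff₀ (by positivity) (by positivity)]
      linarith
  have hxt : (q : ℝ) * ‖x (D.t m)‖ ≤ rr D x δ m := by
    refine mult_le hq1 (by linarith) fun i hi => ?_
    rw [← map_nsmul]
    exact le_rr D (hit i hi)
  have hm3 : (m : ℝ) + 3 ≤ 16 * k * q := by
    have h1 : m + 3 ≤ 16 * k * q := by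
      have : (q + 1) * (8 * k) ≤ 2 * q * (8 * k) := Nat.mul_le_mul_right _ (by omega)
      calc m + 3 ≤ (q + 1) * (8 * k) := hqm'
        _ ≤ 2 * q * (8 * k) := this
        _ = 16 * k * q := by ring
    exact_mod_cast h1
  have e1 : a - e = (a - e - j • D.t m) + j • D.t m := by abel
  rw [e1, map_add, map_zsmul]
  refine (norm_add_le _ _).trans ?_
  have h1 := le_rr D (x := x) hu'
  have h2 : ‖j • x (D.t m)‖ ≤ (16 * k) * rr D x δ m := by
    refine (zsmul_norm_le _ _).trans ?_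
    calc |(j : ℝ)| * ‖x (D.t m)‖ ≤ (16 * k * q) * ‖x (D.t m)‖ :=
          mul_le_mul_of_nonneg_right (hj.trans hm3) (norm_nonneg _)
      _ = (16 * k) * (q * ‖x (D.t m)‖) := by ring
      _ ≤ (16 * k) * rr D x δ m := mul_le_mul_of_nonneg_left hxt (by positivity)
  linarith

theorem descent {δ : ℝ} {x : G →+ T} {k : ℕ} (hk : 1 ≤ k) (hδ : δ = 1 / (8 * k)) {M : ℕ}
    (hM : 8 * k ≤ M + 2) (hr : ∀ m, M ≤ m → rr D x δ m ≤ 1 / 8) (m : ℕ) (hm : M ≤ m) :
    ∀ a ∈ D.F m, ∃ a' ∈ D.F M, (∀ φ ∈ D.Φ M, ‖φ (a - a')‖ ≤ ∑ i ∈ Finset.Ico M m, kap i) ∧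
      ‖x (a - a')‖ ≤ (1 + 16 * k) * ∑ i ∈ Finset.Ico M m, rr D x δ i := by
  induction m, hm using Nat.le_induction with
  | base =>
    intro a ha
    exact ⟨a, ha, by simp, by simp⟩
  | succ m hm ih =>
    intro a ha
    obtain ⟨e, he, hea⟩ := D.net m a
    obtain ⟨a', ha', h1, h2⟩ := ih e he
    refine ⟨a', ha', fun φ hφ => ?_, ?_⟩
    · have e1 : a - a' = (a - e) + (e - a') := by abel
      rw [e1, map_add, Finset.sum_Ico_succ_top hm]
      refine (norm_add_le _ _).trans ?_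
      have h3 := hea φ (Φ_mono D hm hφ)
      have h4 := h1 φ hφ
      linarith
    · have e1 : a - a' = (a - e) + (e - a') := by abel
      rw [e1, map_add, Finset.sum_Ico_succ_top hm]
      refine (norm_add_le _ _).trans ?_
      have h3 := split D hk hδ (m := m) (by omega) (hr m hm) ha he hea
      rw [mul_add]
      linarith

theorem sum_kap (a b : ℕ) : ∑ i ∈ Finset.Ico a b, kap i ≤ (1 / 2) ^ a / 2 := by
  calc ∑ i ∈ Finset.Ico a b, kap i ≤ ∑ i ∈ Finset.Ico a b, (1 / 2) ^ i / 4 :=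
        Finset.sum_le_sum fun i _ => kap_le i
    _ = (∑ i ∈ Finset.Ico a b, ((1 : ℝ) / 2) ^ i) / 4 := by rw [Finset.sum_div]
    _ ≤ (1 / 2) ^ a / 2 := by
      have := geo_le a b
      linarith

/-- a character that is small on a neighbourhood of the finer topology is continuous -/
theorem mem_dual_of_hyp (hτ : @IsTopologicalAddGroup G τ _) (hχ : ∀ φ ∈ dual τ, ∃ n, χ n = φ)
    (hg : ∀ a : G, ∃ n, g n = a) {P : Finset (G →+ T)} (hP : ∀ f ∈ P, f ∈ dual τ) {k : ℕ}
    (hk : 1 ≤ k) {x : G →+ T} (hx : Hyp D P k x) : x ∈ dual τ := by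
  classical
  have hk0 : (0 : ℝ) < k := by exact_mod_cast hk
  -- `P` is contained in some `Φ m1`
  obtain ⟨m1, hm1⟩ : ∃ m1, P ⊆ D.Φ m1 := by
    choose! ix hix using hχ
    refine ⟨P.sup ix + 1, fun f hf => ?_⟩
    have h1 : χ (ix f) = f := hix f (hP f hf)
    have h2 : ix f + 1 ≤ P.sup ix + 1 := by
      have := Finset.le_sup (f := ix) hf
      omega
    have h3 := Φ_mono D h2 (D.χmem (ix f))
    rwa [h1] at h3
  -- a large starting level
  obtain ⟨m0, hm0⟩ : ∃ m0, 2 * ((1 : ℝ) / 2) ^ m0 ≤ 1 / (8 * k) := by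
    obtain ⟨n, hn⟩ := exists_pow_lt_of_lt_one (show (0 : ℝ) < 1 / (16 * k) by positivity)
      (show (1 : ℝ) / 2 < 1 by norm_num)
    refine ⟨n, ?_⟩
    have : 2 * (1 / (16 * (k : ℝ))) = 1 / (8 * k) := by field_simp; norm_num
    linarith
  obtain ⟨m2, hm2⟩ : ∃ m2, m2 = max m1 (max m0 (8 * k)) := ⟨_, rfl⟩
  have h12 : m1 ≤ m2 := by rw [hm2]; exact le_max_left _ _
  have h02 : m0 ≤ m2 := by rw [hm2]; exact (le_max_left _ _).trans (le_max_right _ _)
  have hk2 : 8 * k ≤ m2 := by rw [hm2]; exact (le_max_right _ _).trans (le_max_right _ _)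
  have hpow : 2 * ((1 : ℝ) / 2) ^ m2 ≤ 1 / (8 * k) := by
    have := pow_le_pow_of_le_one (a := (1 : ℝ) / 2) (by norm_num) (by norm_num) h02
    linarith
  obtain ⟨δ, hδ⟩ : ∃ δ : ℝ, δ = 1 / (8 * k) := ⟨_, rfl⟩
  have hδ0 : 0 ≤ δ := by rw [hδ]; positivity
  have hr8 : ∀ m, m2 ≤ m → rr D x δ m ≤ 1 / 8 := by
    intro m hm
    rw [hδ]; exact rr_le_eighth D hx hk hm1 h12 hpow hm
  have hsum : ∀ b, ∑ m ∈ Finset.Ico m2 b, rr D x δ m ≤ 1 / 4 := by
    intro b
    rw [hδ]; exact sum_rr_le D hx hk hm1 h12 hpow b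
  have hS : Summable fun j => rr D x δ (j + m2) := by
    refine summable_of_sum_range_le (c := 1 / 4) (fun j => rr_nonneg D hδ0 _) fun n => ?_
    have := hsum (m2 + n)
    rw [Finset.sum_Ico_eq_sum_range] at this
    rw [show m2 + n - m2 = n by omega] at this
    simpa only [add_comm] using this
  refine mem_dual_of_small τ hτ x fun η hη => ?_
  have hC : (0 : ℝ) < 1 + 16 * k := by positivity
  -- choose the level `M`
  have ht := tendsto_sum_nat_add (fun j => rr D x δ (j + m2))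
  obtain ⟨j, hj⟩ := ((tendsto_order.1 ht).2 (η / (2 * (1 + 16 * k))) (by positivity)).exists
  obtain ⟨M, hM⟩ : ∃ M, M = j + m2 := ⟨_, rfl⟩
  have hM2 : m2 ≤ M := by omega
  have hSM : Summable fun i => rr D x δ (i + j + m2) := (summable_nat_add_iff j).2 hS
  have htail : ∀ b, ∑ i ∈ Finset.Ico M b, rr D x δ i < η / (2 * (1 + 16 * k)) := by
    intro b
    rw [Finset.sum_Ico_eq_sum_range]
    refine lt_of_le_of_lt ?_ hj
    refine le_trans (le_of_eq ?_) (hSM.sum_le_tsum (Finset.range (b - M)) fun i _ => rr_nonneg D hδ0 _)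
    refine Finset.sum_congr rfl fun i _ => ?_
    congr 1
    omega
  have hrM : rr D x δ M < η / 2 := by
    have h1 := htail (M + 1)
    rw [Nat.Ico_succ_singleton, Finset.sum_singleton] at h1
    refine h1.trans_le ?_
    rw [div_le_div_iff_of_pos_left hη (by positivity) (by norm_num)]
    nlinarith
  have hA : {t : G | ∀ φ ∈ D.Φ M, ‖φ t‖ ≤ (1 / 2) ^ M / 2} ∈ @nhds G τ 0 :=
    bohr_mem τ (D.Φ M) (D.hΦ M) (by positivity)
  refine mem_of_superset hA fun a ha => ?_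
  obtain ⟨n, hn⟩ := hg a
  have haF : a ∈ D.F (max M (n + 1)) := by
    rw [← hn]; exact F_mono D (le_max_right _ _) (D.gmem n)
  obtain ⟨a', ha', h1, h2⟩ := descent D hk hδ (M := M) (by omega) (fun m hm => hr8 m (hM2.trans hm))
    (max M (n + 1)) (le_max_left _ _) a haF
  have haL : a' ∈ Lev D δ M := by
    refine ⟨fun φ hφ => ?_, fun n hn => ?_, ?_⟩
    · have e1 : a' = a - (a - a') := by abel
      rw [e1, map_sub]
      refine (norm_sub_le _ _).trans ?_
      have h3 := ha φ hφ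
      have h4 := h1 φ hφ
      have h5 := sum_kap M (max M (n + 1))
      linarith
    · exact (D.hsmall n _ (F_mono D hn.le ha')).trans (kap_le' hn.le)
    · refine (D.hsmall M _ ha').trans ((kap_le_inv M).trans ?_)
      rw [hδ]
      have : (8 * (k : ℝ)) ≤ M + 2 := by exact_mod_cast (show 8 * k ≤ M + 2 by omega)
      exact one_div_le_one_div_of_le (by positivity) this
  have h3 := le_rr D (x := x) haL
  have h4 := htail (max M (n + 1))
  rw [lt_div_iff₀ (by positivity)] at h4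
  have e1 : a = a' + (a - a') := by abel
  change ‖x a‖ < η
  rw [e1, map_add]
  refine lt_of_le_of_lt (norm_add_le _ _) ?_
  nlinarith

end Pool.Agent.H85.MK
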